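import Pool.Agent.H893.SC.P_sim
import Pool.Agent.H893.DD.P_rank
import Mathlib.RingTheory.Ideal.KrullsHeightTheorem

/-!
# Coarsenings of rank one, and independent valuations

A nontrivial valuation ring which is centred on a noetherian ring with the same fraction field has
a coarsening of rank one.
-/

set_option autoImplicit false
set_option linter.unusedVariables false
set_option linter.unusedSectionVars false

universe u

namespace Pool.Agent.H893.SC

open Pool.Agent.W418.LU2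
open Pool.Agent.H176.DT (Mod SU)

variable {F : Type u} [Field F]

lemma over_total {V W W' : ValuationSubring F} (h : V ≤ W) (h' : V ≤ W') : W ≤ W' ∨ W' ≤ W := by
  rcases le_total (⟨W, h⟩ : {S // V ≤ S}) ⟨W', h'⟩ with h1 | h1
  · exact Or.inl h1
  · exact Or.inr h1

/-- The centre of `W` on `A`. -/
def cen (W : ValuationSubring F) (A : Subring F) (hA : A ≤ W.toSubring) : Ideal A :=
  (IsLocalRing.maximalIdeal W).comap (Subring.inclusion hA)

lemma mem_cen {W : ValuationSubring F} {A : Subring F} {hA : A ≤ W.toSubring} {a : A} :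
    a ∈ cen W A hA ↔ W.valuation (a : F) < 1 :=
  W.valuation_lt_one_iff (Subring.inclusion hA a)

instance cen_prime (W : ValuationSubring F) (A : Subring F) (hA : A ≤ W.toSubring) :
    (cen W A hA).IsPrime :=
  Ideal.comap_isPrime _ _

lemma exists_mem_cen {W : ValuationSubring F} {A : Subring F} (hA : A ≤ W.toSubring)
    (hAF : ∀ z : F, ∃ a ∈ A, ∃ b ∈ A, b ≠ 0 ∧ z = a * b⁻¹) (hW : W ≠ ⊤) :
    ∃ a ∈ cen W A hA, a ≠ 0 := by
  obtain ⟨z, hz⟩ : ∃ z : F, z ∉ W := by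
    by_contra h
    push Not at h
    exact hW (eq_top_iff.2 fun x _ => h x)
  obtain ⟨a, ha, b, hb, hb0, hab⟩ := hAF z
  have ha0 : a ≠ 0 := by
    rintro rfl
    rw [zero_mul] at hab
    exact hz (hab ▸ W.zero_mem)
  refine ⟨⟨b, hb⟩, ?_, fun h => hb0 (congrArg Subtype.val h)⟩
  rw [mem_cen, lt_one_iff_inv]
  right
  intro hbi
  exact hz (hab ▸ W.mul_mem _ _ (hA ha) hbi)

lemma cen_mono {W W' : ValuationSubring F} {A : Subring F} (hA : A ≤ W.toSubring)
    (hA' : A ≤ W'.toSubring) (h : W ≤ W') : cen W' A hA' ≤ cen W A hA := fun a ha => by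
  rw [mem_cen] at ha ⊢
  exact Arc.lt h ha

/-- The common element of the centres of the proper coarsenings. -/
lemma exists_common {V : ValuationSubring F} {A : Subring F} [IsNoetherianRing A]
    (hA : A ≤ V.toSubring) (hAF : ∀ z : F, ∃ a ∈ A, ∃ b ∈ A, b ≠ 0 ∧ z = a * b⁻¹) (hV : V ≠ ⊤) :
    ∃ a ∈ A, a ≠ 0 ∧ ∀ W : ValuationSubring F, V ≤ W → W ≠ ⊤ → W.valuation a < 1 := by
  classical
  let S : Set ℕ∞ := {n | ∃ (W : ValuationSubring F) (h : V ≤ W), W ≠ ⊤ ∧
    (cen W A (hA.trans h)).height = n}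
  have hS : S.Nonempty := ⟨_, V, le_rfl, hV, rfl⟩
  obtain ⟨n, ⟨W₀, h₀, hW₀, hn⟩, hmin⟩ := WellFounded.has_min (wellFounded_lt (α := ℕ∞)) S hS
  obtain ⟨a, ha, ha0⟩ := exists_mem_cen (hA.trans h₀) hAF hW₀
  refine ⟨a, a.2, fun h => ha0 (Subtype.ext h), fun W hW hWt => ?_⟩
  rcases over_total hW h₀ with h1 | h1
  · exact mem_cen.1 (cen_mono (hA.trans hW) (hA.trans h₀) h1 ha)
  · by_contra h2
    have h3 : cen W A (hA.trans hW) < cen W₀ A (hA.trans h₀) := by
      refine lt_of_le_of_ne (cen_mono _ _ h1) fun h => h2 ?_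
      have h5 : a ∈ cen W A (hA.trans hW) := by
        rw [h]
        exact ha
      exact mem_cen.1 h5
    have h4 := Ideal.height_strict_mono_of_isPrime h3
    rw [hn] at h4
    exact hmin _ ⟨W, hW, hWt, rfl⟩ h4

/-- The coarsening of rank one. -/
theorem exists_coarse {V : ValuationSubring F} {A : Subring F} [IsNoetherianRing A]
    (hA : A ≤ V.toSubring) (hAF : ∀ z : F, ∃ a ∈ A, ∃ b ∈ A, b ≠ 0 ∧ z = a * b⁻¹) (hV : V ≠ ⊤) :
    ∃ U : ValuationSubring F, V ≤ U ∧ U ≠ ⊤ ∧ ∀ W : ValuationSubring F, U < W → W = ⊤ := by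
  obtain ⟨a, haA, ha0, ha⟩ := exists_common hA hAF hV
  let R : Subring F :=
    { carrier := {z | ∃ W : ValuationSubring F, V ≤ W ∧ W ≠ ⊤ ∧ z ∈ W}
      one_mem' := ⟨V, le_rfl, hV, V.one_mem⟩
      zero_mem' := ⟨V, le_rfl, hV, V.zero_mem⟩
      neg_mem' := by
        rintro z ⟨W, h1, h2, h3⟩
        exact ⟨W, h1, h2, W.neg_mem _ h3⟩
      add_mem' := by
        rintro z w ⟨W, h1, h2, h3⟩ ⟨W', h1', h2', h3'⟩
        rcases over_total h1 h1' with h | h
        · exact ⟨W', h1', h2', W'.add_mem _ _ (h h3) h3'⟩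
        · exact ⟨W, h1, h2, W.add_mem _ _ h3 (h h3')⟩
      mul_mem' := by
        rintro z w ⟨W, h1, h2, h3⟩ ⟨W', h1', h2', h3'⟩
        rcases over_total h1 h1' with h | h
        · exact ⟨W', h1', h2', W'.mul_mem _ _ (h h3) h3'⟩
        · exact ⟨W, h1, h2, W.mul_mem _ _ h3 (h h3')⟩ }
  let U : ValuationSubring F := ValuationSubring.ofSubring R fun z => by
    rcases V.mem_or_inv_mem z with h | h
    · exact Or.inl ⟨V, le_rfl, hV, h⟩
    · exact Or.inr ⟨V, le_rfl, hV, h⟩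
  have hVU : V ≤ U := fun z hz => (⟨V, le_rfl, hV, hz⟩ : z ∈ R)
  refine ⟨U, hVU, ?_, ?_⟩
  · intro h
    have h1 : a⁻¹ ∈ U := by
      rw [h]
      exact ValuationSubring.mem_top _
    obtain ⟨W, h2, h3, h4⟩ : a⁻¹ ∈ R := h1
    rcases lt_one_iff_inv.1 (ha W h2 h3) with h5 | h5
    · exact ha0 h5
    · exact h5 h4
  · intro W hW
    by_contra h
    have h1 : W ≤ U := fun z hz => (⟨W, hVU.trans hW.le, h, hz⟩ : z ∈ R)
    exact absurd h1 (not_le_of_gt hW)

/-- Different valuation rings of rank one are independent. -/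
lemma sep_of_ne {V W : ValuationSubring F} (hVt : V ≠ ⊤)
    (hV : ∀ U : ValuationSubring F, V < U → U = ⊤) (hWt : W ≠ ⊤)
    (hW : ∀ U : ValuationSubring F, W < U → U = ⊤) (hne : V ≠ W) :
    ∃ z : F, V.valuation z < 1 ∧ 1 < W.valuation z := by
  obtain ⟨x, hx, hxW⟩ : ∃ x, x ∈ V ∧ x ∉ W := by
    by_contra h
    push Not at h
    exact hWt (hV W (lt_of_le_of_ne h hne))
  obtain ⟨y, hy, hyV⟩ : ∃ y, y ∈ W ∧ y ∉ V := by
    by_contra h
    push Not at h
    exact hVt (hW V (lt_of_le_of_ne h (Ne.symm hne)))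
  have hx1 := (V.valuation_le_one_iff x).2 hx
  have hxW1 : 1 < W.valuation x := lt_of_not_ge fun h => hxW ((W.valuation_le_one_iff x).1 h)
  have hy1 := (W.valuation_le_one_iff y).2 hy
  have hyV1 : 1 < V.valuation y := lt_of_not_ge fun h => hyV ((V.valuation_le_one_iff y).1 h)
  have hy0 : y ≠ 0 := by
    rintro rfl
    exact hyV V.zero_mem
  have hwy : 0 < W.valuation y := zero_lt_iff.2 ((Valuation.ne_zero_iff _).2 hy0)
  refine ⟨x * y⁻¹, ?_, ?_⟩
  · rw [map_mul, map_inv₀]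
    exact (mul_inv_lt_iff₀ (lt_trans zero_lt_one hyV1)).2
      (by rw [one_mul]; exact lt_of_le_of_lt hx1 hyV1)
  · rw [map_mul, map_inv₀]
    exact (lt_mul_inv_iff₀ hwy).2 (by rw [one_mul]; exact lt_of_le_of_lt hy1 hxW1)

/-- Coarsenings of rank one have the archimedean property. -/
lemma arc_of {V U : ValuationSubring F} (h : V ≤ U)
    (hU : ∀ W : ValuationSubring F, U < W → W = ⊤) : Arc V U := by
  refine ⟨h, fun a b hb ha => ?_⟩
  by_cases ha0 : a = 0
  · subst ha0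
    refine ⟨1, ?_⟩
    rw [pow_one, zero_mul]
    exact V.zero_mem
  · have haU : U.valuation a < 1 := lt_one_iff_inv.2 (Or.inr ha)
    obtain ⟨N, hN⟩ := Pool.Agent.H893.DD.t_arch U hU a b hb (Arc.mem le_rfl haU) ha
    refine ⟨N + 1, Arc.mem h ?_⟩
    rw [pow_succ, mul_assoc, mul_comm a, ← mul_assoc, map_mul]
    exact mul_lt_one_of_nonneg_of_lt_one_right ((U.valuation_le_one_iff _).2 hN) zero_le haU

/-- Simultaneous log uniformization of finitely many independent valuations. -/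
theorem sim_indep (A : Subring F) [IsNoetherianRing A] {m : ℕ} (V : Fin m → ValuationSubring F)
    (hV : ∀ i, V i ≠ ⊤)
    (hind : ∀ i j, i ≠ j → ∀ W : ValuationSubring F, V i ≤ W → V j ≤ W → W = ⊤)
    (hM : ∀ i, Mod (V i) A) (hSU : ∀ i, SU (V i) A) (D I₀ : Ideal A) (hD : D ≠ ⊥) (hI₀ : I₀ ≠ ⊥) :
    ∃ I₁ : Ideal A, I₁ ≠ ⊥ ∧ (∀ i, LogDesing (V i) A D (I₀ * I₁)) ∧
      ∀ q : Ideal A, q.IsPrime → I₁ ≤ q → ∃ (i : Fin m) (W : ValuationSubring F), V i ≤ W ∧
        W ≠ ⊤ ∧ ∀ a : A, W.valuation (a : F) < 1 → a ∈ q := by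
  have h := fun i => exists_coarse (hM i).1 (hM i).2 (hV i)
  choose U hVU hUt hU using h
  obtain ⟨I₁, h1, h2, h3⟩ := t_sim t_stage t_sep A V U hM (fun i => arc_of (hVU i) (hU i)) hSU
    (fun i j hij => sep_of_ne (hUt i) (hU i) (hUt j) (hU j) fun h =>
      hUt i (hind i j hij (U i) (hVU i) (h ▸ hVU j))) D I₀ hD hI₀
  refine ⟨I₁, h1, h2, fun q hq hIq => ?_⟩
  obtain ⟨i, hi⟩ := h3 q hq hIq
  exact ⟨i, U i, hVU i, hUt i, hi⟩

end Pool.Agent.H893.SC
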