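import Pool.Agent.H893.SC.P_coarse
import Pool.Graph.R_seed8.TH188.QS.Qt

/-!
# Projective models

The finite set `G` of nonzero elements of `K` defines the projective scheme `Proj ℤ[G T]`, which is
covered by the spectra of the rings `ℤ[G / g]`, `g ∈ G`.
-/

set_option autoImplicit false
set_option linter.unusedVariables false
set_option linter.unusedSectionVars false

universe u

namespace Pool.Agent.H893.SC

open Pool.Agent.W418.LU2
open Pool.Agent.H176.DT (Mod SU)

variable {K : Type u} [Field K]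

/-! ### Common denominators in the intersection of finitely many valuation rings -/

/-- The Sylvester sequence of `z`: the partial products and the terms. -/
noncomputable def syl (z : K) : ℕ → K × K
  | 0 => (z, z)
  | n + 1 => ((syl z n).1 * ((syl z n).1 + 1), (syl z n).1 + 1)

lemma syl_mem {V : ValuationSubring K} {z : K} (hz : z ∈ V) (n : ℕ) :
    (syl z n).1 ∈ V ∧ (syl z n).2 ∈ V := by
  induction n with
  | zero => exact ⟨hz, hz⟩
  | succ n ih =>
    have h := V.add_mem _ _ ih.1 V.one_mem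
    exact ⟨V.mul_mem _ _ ih.1 h, h⟩

lemma syl_lt {V : ValuationSubring K} {z : K} (hz : z ∈ V) {j n : ℕ} (hjn : j ≤ n)
    (h : V.valuation (syl z j).2 < 1) : V.valuation (syl z n).1 < 1 := by
  induction n, hjn using Nat.le_induction with
  | base =>
    cases j with
    | zero => exact h
    | succ j =>
      change V.valuation ((syl z j).1 * ((syl z j).1 + 1)) < 1
      rw [map_mul]
      exact mul_lt_one_of_nonneg_of_lt_one_right ((V.valuation_le_one_iff _).2 (syl_mem hz j).1)
        zero_le h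
  | succ n hn ih =>
    change V.valuation ((syl z n).1 * ((syl z n).1 + 1)) < 1
    rw [map_mul, mul_comm]
    exact mul_lt_one_of_nonneg_of_lt_one_right
      ((V.valuation_le_one_iff _).2 (V.add_mem _ _ (syl_mem hz n).1 V.one_mem)) zero_le ih

lemma syl_unique {V : ValuationSubring K} {z : K} (hz : z ∈ V) {j n : ℕ} (hjn : j < n)
    (h : V.valuation (syl z j).2 < 1) (h' : V.valuation (syl z n).2 < 1) : False := by
  obtain ⟨m, rfl⟩ : ∃ m, n = m + 1 := ⟨n - 1, by omega⟩
  have h1 := syl_lt hz (Nat.lt_succ_iff.1 hjn) h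
  have h2 : (1 : K) = (syl z (m + 1)).2 - (syl z m).1 := by
    change (1 : K) = (syl z m).1 + 1 - (syl z m).1
    ring
  have h3 : V.valuation (1 : K) < 1 := by
    rw [h2]
    exact lt_of_le_of_lt (V.valuation.map_sub _ _) (max_lt h' h1)
  rw [map_one] at h3
  exact lt_irrefl _ h3

lemma syl_gt {V : ValuationSubring K} {z : K} (hz : 1 < V.valuation z) (n : ℕ) :
    V.valuation z ≤ V.valuation (syl z n).1 ∧ V.valuation z ≤ V.valuation (syl z n).2 := by
  induction n with
  | zero => exact ⟨le_rfl, le_rfl⟩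
  | succ n ih =>
    have h1 : V.valuation ((syl z n).1 + 1) = V.valuation (syl z n).1 := by
      refine V.valuation.map_add_eq_of_lt_left ?_
      rw [map_one]
      exact hz.trans_le ih.1
    have h2 : V.valuation z ≤ V.valuation ((syl z n).1 + 1) := by
      rw [h1]
      exact ih.1
    refine ⟨?_, h2⟩
    change V.valuation z ≤ V.valuation ((syl z n).1 * ((syl z n).1 + 1))
    rw [map_mul]
    exact ih.1.trans (le_mul_of_one_le_right' (hz.le.trans h2))

/-- Common denominators. -/
theorem exists_den {ι : Type} [Finite ι] (V : ι → ValuationSubring K) (z : K) :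
    ∃ d : K, d ≠ 0 ∧ ∀ i, d ∈ V i ∧ d * z ∈ V i := by
  classical
  have := Fintype.ofFinite ι
  -- the trivial valuation ring is added
  let W : Option ι → ValuationSubring K := fun o => o.elim ⊤ V
  obtain ⟨n, hn⟩ : ∃ n : ℕ, ∀ o : Option ι, z ∈ W o → ¬ (W o).valuation (syl z n).2 < 1 := by
    by_contra hcon
    push Not at hcon
    choose o ho1 ho2 using hcon
    obtain ⟨a, b, hab, h⟩ := Finite.exists_ne_map_eq_of_infinite o
    rcases lt_or_gt_of_ne hab with h1 | h1
    · exact syl_unique (ho1 a) h1 (ho2 a) (by rw [h]; exact ho2 b)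
    · exact syl_unique (ho1 b) h1 (ho2 b) (by rw [← h]; exact ho2 a)
  have hne : (syl z n).2 ≠ 0 := by
    intro h
    refine hn none (ValuationSubring.mem_top _) ?_
    rw [h, map_zero]
    exact zero_lt_one
  refine ⟨(syl z n).2⁻¹, inv_ne_zero hne, fun i => ?_⟩
  have hn' := hn (some i)
  change z ∈ V i → ¬ (V i).valuation (syl z n).2 < 1 at hn'
  rw [← (V i).valuation_le_one_iff, ← (V i).valuation_le_one_iff, map_mul, map_inv₀]
  have h0 : 0 < (V i).valuation (syl z n).2 := zero_lt_iff.2 ((Valuation.ne_zero_iff _).2 hne)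
  by_cases hz : z ∈ V i
  · have h1 := not_lt.1 (hn' hz)
    have h2 := (inv_le_one₀ h0).2 h1
    exact ⟨h2, mul_le_one' h2 (((V i).valuation_le_one_iff z).2 hz)⟩
  · have hz1 : 1 < (V i).valuation z := lt_of_not_ge fun h => hz (((V i).valuation_le_one_iff z).1 h)
    have h1 := (syl_gt hz1 n).2
    refine ⟨(inv_le_one₀ h0).2 (hz1.le.trans h1), ?_⟩
    rw [mul_comm]
    exact (mul_inv_le_iff₀ h0).2 (by rw [one_mul]; exact h1)

/-- A model in the intersection of finitely many valuation rings. -/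
theorem exists_aff {ι : Type} [Finite ι] (V : ι → ValuationSubring K) (T : Set K) (hT : T.Finite)
    (hTK : ∀ z : K, ∃ a ∈ Subring.closure T, ∃ b ∈ Subring.closure T, b ≠ 0 ∧ z = a * b⁻¹) :
    ∃ S : Set K, S.Finite ∧ (0 : K) ∉ S ∧ (1 : K) ∈ S ∧ (∀ i, Subring.closure S ≤ (V i).toSubring) ∧
      ∀ z : K, ∃ a ∈ Subring.closure S, ∃ b ∈ Subring.closure S, b ≠ 0 ∧ z = a * b⁻¹ := by
  classical
  choose d hd0 hd using fun z => exists_den V z
  let S : Set K := (insert 1 (d '' T ∪ (fun t => d t * t) '' T)) \ {0}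
  have hSf : S.Finite :=
    (((hT.image _).union (hT.image _)).insert _).subset Set.diff_subset
  refine ⟨S, hSf, fun h => h.2 rfl, ⟨Set.mem_insert _ _, one_ne_zero⟩, fun i => ?_, ?_⟩
  · rw [Subring.closure_le]
    rintro z ⟨rfl | ⟨t, -, rfl⟩ | ⟨t, -, rfl⟩, -⟩
    · exact (V i).one_mem
    · exact (hd t i).1
    · exact (hd t i).2
  · -- the fractions
    have hsub : ∀ x ∈ (insert 1 (d '' T ∪ (fun t => d t * t) '' T) : Set K),
        x ∈ Subring.closure S := by
      intro x hx
      by_cases hx0 : x = 0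
      · rw [hx0]
        exact zero_mem _
      · exact Subring.subset_closure ⟨hx, hx0⟩
    have hfr : ∀ x ∈ Subring.closure T, x ∈ Subfield.closure (Subring.closure S : Set K) := by
      intro x hx
      have h1 : Subring.closure T ≤ (Subfield.closure (Subring.closure S : Set K)).toSubring := by
        rw [Subring.closure_le]
        intro t ht
        have h2 : d t ∈ Subfield.closure (Subring.closure S : Set K) :=
          Subfield.subset_closure (hsub _ (Or.inr (Or.inl ⟨t, ht, rfl⟩)))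
        have h3 : d t * t ∈ Subfield.closure (Subring.closure S : Set K) :=
          Subfield.subset_closure (hsub _ (Or.inr (Or.inr ⟨t, ht, rfl⟩)))
        have h4 : t = (d t)⁻¹ * (d t * t) := by
          rw [← mul_assoc, inv_mul_cancel₀ (hd0 t), one_mul]
        change t ∈ Subfield.closure (Subring.closure S : Set K)
        rw [h4]
        exact mul_mem (inv_mem h2) h3
      exact h1 hx
    intro z
    obtain ⟨a, ha, b, hb, hb0, rfl⟩ := hTK z
    have h5 : a * b⁻¹ ∈ Subfield.closure (Subring.closure S : Set K) :=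
      mul_mem (hfr a ha) (inv_mem (hfr b hb))
    rw [Subfield.mem_closure_iff] at h5
    obtain ⟨x, hx, y, hy, hxy⟩ := h5
    rw [Subring.closure_eq] at hx hy
    by_cases hy0 : y = 0
    · refine ⟨0, zero_mem _, 1, one_mem _, one_ne_zero, ?_⟩
      rw [← hxy, hy0, div_zero, zero_mul]
    · exact ⟨x, hx, y, hy, hy0, by rw [← hxy, div_eq_mul_inv]⟩

/-! ### The charts of projective models -/

/-- The chart `ℤ[G / g]` of the projective scheme defined by `G`. -/
def cht (G : Set K) (g : K) : Subring K := Subring.closure {z | ∃ g' ∈ G, z = g' / g}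

/-- The product of two sets. -/
def prd (H B : Set K) : Set K := {z | ∃ h ∈ H, ∃ b ∈ B, z = h * b}

lemma lo_inv {V : ValuationSubring K} {B : Subring K} {x : K} (hx : x ∈ lo V.toSubring B)
    (hx0 : x ≠ 0) (hxV : x⁻¹ ∈ V) : x⁻¹ ∈ lo V.toSubring B := by
  obtain ⟨a, ha, b, hb, hb0, hbV, rfl⟩ := hx
  have ha0 : a ≠ 0 := fun h => hx0 (by rw [h, zero_mul])
  refine ⟨b, hb, a, ha, ha0, ?_, by rw [mul_inv, inv_inv, mul_comm]⟩
  have h1 : a⁻¹ = (a * b⁻¹)⁻¹ * b⁻¹ := by
    rw [mul_inv, inv_inv, mul_assoc, mul_inv_cancel₀ hb0, mul_one]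
  rw [h1]
  exact mul_mem hxV hbV

/-- The local rings of the projective closure of a blowing-up. -/
theorem lo_cht {V : ValuationSubring K} {A : Subring K} {S : Set K} (h0S : (0 : K) ∉ S)
    (h1S : (1 : K) ∈ S) (hAS : A = Subring.closure S) (hAV : A ≤ V.toSubring) {I : Ideal A}
    {E : Set K} (h0E : (0 : K) ∉ E) (hE : ∀ e ∈ E, ∃ a ∈ I, (a : K) = e)
    (hI : ∀ a ∈ I, ∀ R : Subring K, ∀ g : K, A ≤ R → (∀ e ∈ E, e / g ∈ R) → (a : K) / g ∈ R)
    {f : A} (hf : f ∈ I) (hf0 : (f : K) ≠ 0) (hfV : ∀ a ∈ I, (a : K) / (f : K) ∈ V) {G : Set K}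
    (hG : ∀ z, z ∈ G ↔ ∃ s ∈ S, ∃ e ∈ E, z = s * e) {g : K} (hg : g ∈ G)
    (hgV : ∀ g' ∈ G, g' / g ∈ V) :
    lo V.toSubring (cht G g) =
      lo V.toSubring (Subring.closure ((A : Set K) ∪ {z | ∃ a ∈ I, z = (a : K) / (f : K)})) := by
  set B := Subring.closure ((A : Set K) ∪ {z | ∃ a ∈ I, z = (a : K) / (f : K)}) with hB
  have hSA : ∀ s ∈ S, s ∈ A := fun s hs => by
    rw [hAS]
    exact Subring.subset_closure hs
  have hE0 : ∀ e ∈ E, e ≠ 0 := fun e he h => h0E (h ▸ he)
  have hS0 : ∀ s ∈ S, s ≠ 0 := fun s hs h => h0S (h ▸ hs)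
  obtain ⟨s, hs, e, he, rfl⟩ := (hG g).1 hg
  have hg0 : s * e ≠ 0 := mul_ne_zero (hS0 s hs) (hE0 e he)
  have hEG : ∀ e' ∈ E, e' ∈ G := fun e' he' => (hG e').2 ⟨1, h1S, e', he', (one_mul _).symm⟩
  have hBV : B ≤ V.toSubring := by
    rw [hB, Subring.closure_le]
    rintro z (hz | ⟨a, ha, rfl⟩)
    · exact hAV hz
    · exact hfV a ha
  have hCV : cht G (s * e) ≤ V.toSubring := by
    unfold cht
    rw [Subring.closure_le]
    rintro z ⟨g', hg', rfl⟩
    exact hgV g' hg'
  have hAB : A ≤ B := fun z hz => Subring.subset_closure (Or.inl hz)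
  have hIB : ∀ e' ∈ E, e' / (f : K) ∈ B := fun e' he' => by
    obtain ⟨a, ha, rfl⟩ := hE e' he'
    exact Subring.subset_closure (Or.inr ⟨a, ha, rfl⟩)
  -- the quotient of the two generators
  have hu : s * e / (f : K) ∈ B := by
    rw [mul_div_assoc]
    exact mul_mem (hAB (hSA s hs)) (hIB e he)
  have hfg : (f : K) / (s * e) ∈ V.toSubring :=
    hI f hf V.toSubring (s * e) hAV fun e' he' => hgV e' (hEG e' he')
  have huV : (s * e / (f : K))⁻¹ ∈ V := by
    rw [inv_div]
    exact hfg
  have huB : (f : K) / (s * e) ∈ lo V.toSubring B := by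
    have h1 := lo_inv (le_lo V.toSubring B hu) (div_ne_zero hg0 hf0) huV
    rwa [inv_div] at h1
  have hCB : cht G (s * e) ≤ lo V.toSubring B := by
    unfold cht
    rw [Subring.closure_le]
    rintro z ⟨g', hg', rfl⟩
    obtain ⟨s', hs', e', he', rfl⟩ := (hG g').1 hg'
    have h1 : s' * e' / (s * e) = s' * (e' / (f : K)) * ((f : K) / (s * e)) := by
      field_simp
    rw [h1]
    exact mul_mem (le_lo _ _ (mul_mem (hAB (hSA s' hs')) (hIB e' he'))) huB
  -- the other inclusion
  have hEC : ∀ e' ∈ E, e' / (s * e) ∈ cht G (s * e) := fun e' he' =>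
    Subring.subset_closure ⟨e', hEG e' he', rfl⟩
  have hAC : A ≤ lo V.toSubring (cht G (s * e)) := by
    rw [hAS, Subring.closure_le]
    intro s' hs'
    have h1 : s' = s' * e / (s * e) * (e / (s * e))⁻¹ := by
      have := hE0 e he
      have := hS0 s hs
      field_simp
    change s' ∈ lo V.toSubring (cht G (s * e))
    rw [h1]
    refine mul_mem (le_lo _ _ (Subring.subset_closure ⟨s' * e, (hG _).2 ⟨s', hs', e, he, rfl⟩, rfl⟩))
      (lo_inv (le_lo _ _ (hEC e he)) (div_ne_zero (hE0 e he) hg0) ?_)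
    have h2 : (e / (s * e))⁻¹ = s := by
      have := hE0 e he
      field_simp
    rw [h2]
    exact hAV (hSA s hs)
  have hIC : ∀ a ∈ I, (a : K) / (s * e) ∈ lo V.toSubring (cht G (s * e)) := fun a ha =>
    hI a ha _ (s * e) hAC fun e' he' => le_lo _ _ (hEC e' he')
  have hgf : s * e / (f : K) ∈ lo V.toSubring (cht G (s * e)) := by
    have h1 := lo_inv (hIC f hf) (div_ne_zero hf0 hg0) (by rw [inv_div]; exact hBV hu)
    rwa [inv_div] at h1
  have hBC : B ≤ lo V.toSubring (cht G (s * e)) := by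
    rw [hB, Subring.closure_le]
    rintro z (hz | ⟨a, ha, rfl⟩)
    · exact hAC hz
    · rw [← div_mul_div_cancel₀ hg0]
      exact mul_mem (hIC a ha) hgf
  refine le_antisymm ?_ ?_
  · exact Pool.Agent.TH188.QS.lo_le_lo hBV hCB
  · exact Pool.Agent.TH188.QS.lo_le_lo hCV hBC

end Pool.Agent.H893.SC
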