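import Pool.Agent.H893.SC.P_proj

/-!
# Projective models which are regular at the centres of finitely many valuations
-/

set_option autoImplicit false
set_option linter.unusedVariables false
set_option linter.unusedSectionVars false

universe u

namespace Pool.Agent.H893.SC

open Pool.Agent.W418.LU2
open Pool.Agent.H176.DT (Mod SU)

variable {K : Type u} [Field K]

lemma frac_of {R A : Subring K} (hAF : ∀ z : K, ∃ a ∈ A, ∃ b ∈ A, b ≠ 0 ∧ z = a * b⁻¹)
    (h : ∀ a ∈ A, a ∈ Subfield.closure (R : Set K)) (z : K) :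
    ∃ a ∈ R, ∃ b ∈ R, b ≠ 0 ∧ z = a * b⁻¹ := by
  obtain ⟨a, ha, b, hb, hb0, rfl⟩ := hAF z
  have h5 : a * b⁻¹ ∈ Subfield.closure (R : Set K) := mul_mem (h a ha) (inv_mem (h b hb))
  rw [Subfield.mem_closure_iff] at h5
  obtain ⟨x, hx, y, hy, hxy⟩ := h5
  rw [Subring.closure_eq] at hx hy
  by_cases hy0 : y = 0
  · refine ⟨0, zero_mem _, 1, one_mem _, one_ne_zero, ?_⟩
    rw [← hxy, hy0, div_zero, zero_mul]
  · exact ⟨x, hx, y, hy, hy0, by rw [← hxy, div_eq_mul_inv]⟩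

lemma exists_cden {A : Subring K} (hAF : ∀ z : K, ∃ a ∈ A, ∃ b ∈ A, b ≠ 0 ∧ z = a * b⁻¹)
    {H : Set K} (hH : H.Finite) : ∃ c ∈ A, c ≠ 0 ∧ ∀ h ∈ H, c * h ∈ A := by
  induction H, hH using Set.Finite.induction_on with
  | empty => exact ⟨1, one_mem _, one_ne_zero, fun h hh => absurd hh (Set.notMem_empty _)⟩
  | @insert h H _ _ ih =>
    obtain ⟨c, hc, hc0, hcH⟩ := ih
    obtain ⟨a, ha, b, hb, hb0, rfl⟩ := hAF h
    refine ⟨c * b, mul_mem hc hb, mul_ne_zero hc0 hb0, ?_⟩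
    rintro x (rfl | hx)
    · have h1 : c * b * (a * b⁻¹) = c * a := by field_simp
      rw [h1]
      exact mul_mem hc ha
    · have h1 : c * b * x = c * x * b := by ring
      rw [h1]
      exact mul_mem (hcH x hx) hb

/-- Every projective model has a blowing-up which is regular at the centres of the given independent
valuations. -/
theorem proj_model {m : ℕ} (V : Fin m → ValuationSubring K) (hV : ∀ i, V i ≠ ⊤)
    (hind : ∀ i j, i ≠ j → ∀ W : ValuationSubring K, V i ≤ W → V j ≤ W → W = ⊤)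
    (T : Set K) (hT : T.Finite)
    (hTK : ∀ z : K, ∃ a ∈ Subring.closure T, ∃ b ∈ Subring.closure T, b ≠ 0 ∧ z = a * b⁻¹)
    (hN : ∀ S : Set K, S.Finite → IsNoetherianRing (Subring.closure S))
    (hSU : ∀ (i : Fin m) (S : Set K), S.Finite → Mod (V i) (Subring.closure S) →
      SU (V i) (Subring.closure S))
    (H : Set K) (hH : H.Finite) (hHn : H.Nonempty) (hH0 : (0 : K) ∉ H) :
    ∃ B : Set K, B.Finite ∧ B.Nonempty ∧ (0 : K) ∉ B ∧ ∀ g ∈ prd H B,
      (∀ z : K, ∃ a ∈ cht (prd H B) g, ∃ b ∈ cht (prd H B) g, b ≠ 0 ∧ z = a * b⁻¹) ∧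
      ∀ i, (∀ g' ∈ prd H B, g' / g ∈ V i) →
        IsRegularLocalRing (lo (V i).toSubring (cht (prd H B) g)) := by
  classical
  obtain ⟨S, hSf, h0S, h1S, hSV, hSF⟩ := exists_aff V T hT hTK
  set A := Subring.closure S with hA
  have hSA : ∀ s ∈ S, s ∈ A := fun s hs => Subring.subset_closure hs
  have hNA : IsNoetherianRing A := hN S hSf
  obtain ⟨c, hcA, hc0, hcH⟩ := exists_cden hSF hH
  -- the ideal of the given model
  let S0 : Set A := {x | ∃ h ∈ H, (x : K) = c * h}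
  have hI0 : Ideal.span S0 ≠ ⊥ := by
    obtain ⟨h, hh⟩ := hHn
    intro hbot
    have h1 : (⟨c * h, hcH h hh⟩ : A) ∈ Ideal.span S0 := Ideal.subset_span ⟨h, hh, rfl⟩
    rw [hbot, Ideal.mem_bot] at h1
    exact mul_ne_zero hc0 (fun h2 => hH0 (h2 ▸ hh)) (congrArg Subtype.val h1)
  obtain ⟨I₁, hI1, hLD, -⟩ := sim_indep A V hV hind (fun i => ⟨hSV i, hSF⟩)
    (fun i => hSU i S hSf ⟨hSV i, hSF⟩) ⊤ (Ideal.span S0) top_ne_bot hI0
  obtain ⟨s1, hs1⟩ := (isNoetherianRing_iff_ideal_fg A).1 hNA I₁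
  let E₁ : Set K := {e | ∃ x ∈ s1, x ≠ 0 ∧ e = (x : K)}
  have hE1f : E₁.Finite := by
    refine (s1.finite_toSet.image (fun x : A => (x : K))).subset ?_
    rintro e ⟨x, hx, -, rfl⟩
    exact ⟨x, hx, rfl⟩
  have hE1n : E₁.Nonempty := by
    by_contra hcon
    rw [Set.not_nonempty_iff_eq_empty] at hcon
    apply hI1
    rw [← hs1, Ideal.span_eq_bot]
    intro x hx
    by_contra hx0
    have h1 : (x : K) ∈ E₁ := ⟨x, hx, hx0, rfl⟩
    rw [hcon] at h1
    exact h1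
  have hE10 : ∀ e ∈ E₁, e ≠ 0 := by
    rintro e ⟨x, -, hx0, rfl⟩ h
    exact hx0 (Subtype.ext h)
  have hH0' : ∀ h ∈ H, h ≠ 0 := fun h hh h0 => hH0 (h0 ▸ hh)
  have hS0' : ∀ s ∈ S, s ≠ 0 := fun s hs h0 => h0S (h0 ▸ hs)
  let E : Set K := {e | ∃ h ∈ H, ∃ e₁ ∈ E₁, e = c * h * e₁}
  let B : Set K := {b | ∃ s ∈ S, ∃ e₁ ∈ E₁, b = s * (c * e₁)}
  have hBf : B.Finite := by
    refine (Set.Finite.image2 (fun s e₁ => s * (c * e₁)) hSf hE1f).subset ?_
    rintro b ⟨s, hs, e₁, he₁, rfl⟩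
    exact ⟨s, hs, e₁, he₁, rfl⟩
  have hBn : B.Nonempty := by
    obtain ⟨e, he⟩ := hE1n
    exact ⟨1 * (c * e), 1, h1S, e, he, rfl⟩
  have hB0 : (0 : K) ∉ B := by
    rintro ⟨s, hs, e₁, he₁, h⟩
    exact mul_ne_zero (hS0' s hs) (mul_ne_zero hc0 (hE10 e₁ he₁)) h.symm
  have hG : ∀ z, z ∈ prd H B ↔ ∃ s ∈ S, ∃ e ∈ E, z = s * e := by
    intro z
    constructor
    · rintro ⟨h, hh, b, ⟨s, hs, e₁, he₁, rfl⟩, rfl⟩
      exact ⟨s, hs, c * h * e₁, ⟨h, hh, e₁, he₁, rfl⟩, by ring⟩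
    · rintro ⟨s, hs, e, ⟨h, hh, e₁, he₁, rfl⟩, rfl⟩
      exact ⟨h, hh, s * (c * e₁), ⟨s, hs, e₁, he₁, rfl⟩, by ring⟩
  have hE0 : ∀ e ∈ E, e ≠ 0 := by
    rintro e ⟨h, hh, e₁, he₁, rfl⟩
    exact mul_ne_zero (mul_ne_zero hc0 (hH0' h hh)) (hE10 e₁ he₁)
  have hEI : ∀ e ∈ E, ∃ a ∈ Ideal.span S0 * I₁, (a : K) = e := by
    rintro e ⟨h, hh, e₁, ⟨x, hx, -, rfl⟩, rfl⟩
    refine ⟨⟨c * h, hcH h hh⟩ * x, Ideal.mul_mem_mul (Ideal.subset_span ⟨h, hh, rfl⟩) ?_, rfl⟩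
    rw [← hs1]
    exact Ideal.subset_span hx
  have hIspan : Ideal.span S0 * I₁ ≤ Ideal.span {z : A | (z : K) ∈ E} := by
    rw [← hs1, Ideal.span_mul_span', Ideal.span_le]
    rintro z ⟨x, ⟨h, hh, hx⟩, y, hy, rfl⟩
    by_cases hy0 : y = 0
    · simp only [hy0, mul_zero]
      exact zero_mem _
    · refine Ideal.subset_span ⟨h, hh, (y : K), ⟨y, hy, hy0, rfl⟩, ?_⟩
      change (x : K) * (y : K) = c * h * (y : K)
      rw [hx]
  have hI' : ∀ a ∈ Ideal.span {z : A | (z : K) ∈ E}, ∀ R : Subring K, ∀ g : K, A ≤ R →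
      (∀ e ∈ E, e / g ∈ R) → (a : K) / g ∈ R := by
    intro a ha R g hAR hER
    induction ha using Submodule.span_induction with
    | mem z hz => exact hER _ hz
    | zero =>
      change (0 : K) / g ∈ R
      rw [zero_div]
      exact zero_mem _
    | add x y hx hy h1 h2 =>
      change ((x : K) + (y : K)) / g ∈ R
      rw [add_div]
      exact add_mem h1 h2
    | smul r x hx h1 =>
      change ((r : K) * (x : K)) / g ∈ R
      rw [mul_div_assoc]
      exact mul_mem (hAR r.2) h1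
  have hI : ∀ a ∈ Ideal.span S0 * I₁, ∀ R : Subring K, ∀ g : K, A ≤ R →
      (∀ e ∈ E, e / g ∈ R) → (a : K) / g ∈ R := fun a ha => hI' a (hIspan ha)
  refine ⟨B, hBf, hBn, hB0, fun g hg => ⟨?_, fun i hgV => ?_⟩⟩
  · -- the fractions
    have hgen : ∀ s ∈ S, s ∈ Subfield.closure (cht (prd H B) g : Set K) := by
      intro s hs
      obtain ⟨s', hs', e, he, rfl⟩ := (hG g).1 hg
      have h1 : s * e / (s' * e) ∈ Subfield.closure (cht (prd H B) (s' * e) : Set K) :=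
        Subfield.subset_closure (Subring.subset_closure ⟨s * e, (hG _).2 ⟨s, hs, e, he, rfl⟩, rfl⟩)
      have h2 : 1 * e / (s' * e) ∈ Subfield.closure (cht (prd H B) (s' * e) : Set K) :=
        Subfield.subset_closure (Subring.subset_closure
          ⟨1 * e, (hG _).2 ⟨1, h1S, e, he, rfl⟩, rfl⟩)
      have h3 : s = s * e / (s' * e) / (1 * e / (s' * e)) := by
        have := hE0 e he
        have := hS0' s' hs'
        field_simp
      rw [h3]
      exact div_mem h1 h2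
    refine frac_of hSF fun a ha => ?_
    have h1 : A ≤ (Subfield.closure (cht (prd H B) g : Set K)).toSubring := by
      rw [hA, Subring.closure_le]
      exact fun s hs => hgen s hs
    exact h1 ha
  · obtain ⟨f, hf, hf0, hfV, hreg, -⟩ := hLD i
    have hf0' : (f : K) ≠ 0 := fun h => hf0 (Subtype.ext h)
    rw [lo_cht (V := V i) (A := A) (S := S) h0S h1S rfl (hSV i) (I := Ideal.span S0 * I₁) (E := E)
      (fun h => hE0 0 h rfl) hEI hI hf hf0' hfV hG hg hgV]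
    exact hreg

end Pool.Agent.H893.SC
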