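import Pool.Agent.H893.SC.Stm
import Pool.Agent.H893.DD.P_sep

/-!
# Separation of the centres of finitely many independent valuations by one ideal
-/

set_option autoImplicit false
set_option linter.unusedVariables false
set_option linter.unusedSectionVars false

universe u

namespace Pool.Agent.H893.SC.Psep

open Pool.Agent.W418.LU2 IsLocalRing
open Pool.Agent.H176.DT (Mod SU PP St val_one_iff)


variable {F : Type u} [Field F]

/-- A power of the centre is divisible by a given nonzero element. -/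
lemma powers (V U : ValuationSubring F) (A : Subring F) [IsNoetherianRing A]
    (hAV : A ≤ V.toSubring) (hA : Arc V U)
    (c : Ideal A) (hc : ∀ a : A, a ∈ c ↔ U.valuation (a : F) < 1) (e : F) (he : e ≠ 0) :
    ∃ N : ℕ, ∀ w ∈ c ^ N, (w : F) / e ∈ V := by
  by_cases h0 : c = ⊥
  · refine ⟨1, fun w hw => ?_⟩
    rw [h0, pow_one, Ideal.mem_bot] at hw
    rw [hw]
    have h1 : ((0 : A) : F) / e = 0 := by simp
    rw [h1]
    exact V.zero_mem
  · obtain ⟨g, hg, hg0, hgV⟩ := Pool.Agent.H893.DD.Psep.gen1 V A hAV c h0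
    have hg1 : U.valuation (g : F) < 1 := (hc g).1 hg
    have hgi : (g : F)⁻¹ ∉ U := by
      rcases lt_one_iff_inv.1 hg1 with h | h
      · exact absurd h hg0
      · exact h
    obtain ⟨N, hN⟩ := hA.2 (g : F) e he hgi
    refine ⟨N, fun w hw => ?_⟩
    have h1 : (w : F) / (g : F) ^ N ∈ V := Pool.Agent.H893.DD.Psep.pow_div hAV hgV N w hw
    have h2 : (w : F) / e = (w : F) / (g : F) ^ N * ((g : F) ^ N * e⁻¹) := by
      field_simp
    rw [h2]
    exact V.mul_mem _ _ h1 hN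

/-- The ideal of a pair of valuations. -/
lemma pair (A : Subring F) [IsNoetherianRing A] (V V' W W' : ValuationSubring F) (hV : Mod V A)
    (hW : Mod W A) (hVA : Arc V V') (hWA : Arc W W')
    (c d : Ideal A) (hc : ∀ a : A, a ∈ c ↔ V'.valuation (a : F) < 1)
    (hd : ∀ a : A, a ∈ d ↔ W'.valuation (a : F) < 1)
    (hz : ∃ z : F, V'.valuation z < 1 ∧ 1 < W'.valuation z) :
    ∃ (K : Ideal A) (a b : A), a ∈ K ∧ b ∈ K ∧ (a : F) ≠ 0 ∧ (b : F) ≠ 0 ∧
      (∀ u ∈ K, (u : F) / (b : F) ∈ V) ∧ (∀ u ∈ K, (u : F) / (a : F) ∈ W) ∧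
      V'.valuation ((a : F) / (b : F)) < 1 ∧
      ∀ q : Ideal A, q.IsPrime → K ≤ q → c ≤ q ∨ d ≤ q := by
  obtain ⟨z, hz1, hz2⟩ := hz
  obtain ⟨a, ha, b, hb, hb0, hzab⟩ := hV.2 z
  have hz0 : z ≠ 0 := by
    rintro rfl
    rw [map_zero] at hz2
    exact absurd hz2 not_lt_zero
  have ha0 : a ≠ 0 := by
    rintro rfl
    exact hz0 (by rw [hzab, zero_mul])
  obtain ⟨N₁, h1⟩ := powers V V' A hV.1 hVA c hc b hb0
  obtain ⟨N₂, h2⟩ := powers W W' A hW.1 hWA d hd a ha0
  have hzd : a / b = z := by rw [hzab, div_eq_mul_inv]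
  have hzV : z ∈ V := Arc.mem hVA.1 hz1
  have hzW : z⁻¹ ∈ W := by
    refine Arc.mem hWA.1 ?_
    rw [map_inv₀]
    exact inv_lt_one_of_one_lt₀ hz2
  refine ⟨Ideal.span {(⟨a, ha⟩ : A), (⟨b, hb⟩ : A)} ⊔ c ^ N₁ * d ^ N₂, ⟨a, ha⟩, ⟨b, hb⟩,
    Ideal.mem_sup_left (Ideal.subset_span (Or.inl rfl)),
    Ideal.mem_sup_left (Ideal.subset_span (Or.inr rfl)), ha0, hb0, ?_, ?_, ?_, ?_⟩
  · intro u hu
    obtain ⟨s, hs, t, ht, rfl⟩ := Submodule.mem_sup.1 hu
    have h3 : ((s + t : A) : F) / b = (s : F) / b + (t : F) / b := add_div _ _ _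
    change ((s + t : A) : F) / b ∈ V
    rw [h3]
    have htc : t ∈ c ^ N₁ := (Ideal.mul_le_left : c ^ N₁ * d ^ N₂ ≤ c ^ N₁) ht
    refine V.add_mem _ _ ?_ (h1 t htc)
    refine Pool.Agent.H893.DD.Psim.div_span (P := V.toSubring) hV.1 ?_ s hs
    rintro x (rfl | hx)
    · change a / b ∈ V
      rw [hzd]; exact hzV
    · rw [Set.mem_singleton_iff] at hx
      subst hx
      change b / b ∈ V
      rw [div_self hb0]; exact V.one_mem
  · intro u hu
    obtain ⟨s, hs, t, ht, rfl⟩ := Submodule.mem_sup.1 hu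
    have h3 : ((s + t : A) : F) / a = (s : F) / a + (t : F) / a := add_div _ _ _
    change ((s + t : A) : F) / a ∈ W
    rw [h3]
    have htd : t ∈ d ^ N₂ := (Ideal.mul_le_right : c ^ N₁ * d ^ N₂ ≤ d ^ N₂) ht
    refine W.add_mem _ _ ?_ (h2 t htd)
    refine Pool.Agent.H893.DD.Psim.div_span (P := W.toSubring) hW.1 ?_ s hs
    rintro x (rfl | hx)
    · change a / a ∈ W
      rw [div_self ha0]; exact W.one_mem
    · rw [Set.mem_singleton_iff] at hx
      subst hx
      change b / a ∈ W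
      have h4 : b / a = z⁻¹ := by rw [← hzd, inv_div]
      rw [h4]; exact hzW
  · change V'.valuation (a / b) < 1
    rw [hzd]; exact hz1
  · intro q hq hK
    have h3 : c ^ N₁ * d ^ N₂ ≤ q := le_trans le_sup_right hK
    rcases (Ideal.IsPrime.mul_le hq).1 h3 with h | h
    · exact Or.inl (hq.le_of_pow_le h)
    · exact Or.inr (hq.le_of_pow_le h)

end Pool.Agent.H893.SC.Psep

namespace Pool.Agent.H893.SC

open Pool.Agent.W418.LU2 IsLocalRing
open Pool.Agent.H176.DT (Mod SU PP St val_one_iff)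


theorem t_sep : S_sep.{u} := by
  classical
  intro F _ A _ m V U hV hA hz
  have hAU : ∀ i, A ≤ (U i).toSubring := fun i a ha => (hA i).1 ((hV i).1 ha)
  -- the centres
  set c : Fin m → Ideal A := fun i => (maximalIdeal (U i)).comap
    (Subring.inclusion (hAU i) : A →+* U i) with hcdef
  have hcm : ∀ i (a : A), a ∈ c i ↔ (U i).valuation (a : F) < 1 := fun i a =>
    Pool.Agent.H893.DD.Psim.mem_cen (hAU i) a
  -- the pairs
  let Pr : Type := {p : Fin m × Fin m // p.1 ≠ p.2}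
  choose K a b ha hb ha0 hb0 hKb hKa hab hK using fun p : Pr =>
    Psep.pair A (V p.1.1) (U p.1.1) (V p.1.2) (U p.1.2) (hV _) (hV _) (hA _) (hA _) (c p.1.1)
      (c p.1.2) (hcm _) (hcm _) (hz _ _ p.2)
  have hK0 : ∀ p, K p ≠ ⊥ := by
    intro p h
    have h1 := ha p
    rw [h, Ideal.mem_bot] at h1
    exact ha0 p (congrArg Subtype.val h1)
  choose g hg hg0 hgV using fun (l : Fin m) (p : Pr) =>
    Pool.Agent.H893.DD.Psep.gen1 (V l) A (hV l).1 (K p) (hK0 p)
  have hfJ : ∀ l, (∏ p, g l p) ∈ ∏ p, K p := fun l => Ideal.prod_mem_prod fun p _ => hg l p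
  have hf0 : ∀ l, ((∏ p, g l p : A) : F) ≠ 0 := by
    intro l
    have h1 : ((∏ p, g l p : A) : F) = ∏ p, (g l p : F) := by push_cast; rfl
    rw [h1]
    exact Finset.prod_ne_zero_iff.2 fun p _ => hg0 l p
  have hfV : ∀ l, ∀ u ∈ ∏ p, K p, (u : F) / ((∏ p, g l p : A) : F) ∈ V l := fun l =>
    Pool.Agent.H893.DD.Psep.prod_div (P := (V l).toSubring) (hV l).1 K (g l) (hgV l) Finset.univ
  refine ⟨∏ p, K p, fun l => ∏ p, g l p, fun l => ⟨hfJ l, hf0 l, hfV l⟩, ?_, ?_⟩
  · intro i j hij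
    set p : Pr := ⟨(i, j), hij⟩ with hp
    set r : A := ∏ s ∈ Finset.univ.erase p, g j s with hr
    have hrK : ∀ x ∈ K p, x * r ∈ ∏ s, K s := by
      intro x hx
      rw [← Finset.mul_prod_erase Finset.univ K (Finset.mem_univ p)]
      exact Ideal.mul_mem_mul hx (Ideal.prod_mem_prod fun s _ => hg j s)
    have hr0 : (r : F) ≠ 0 := by
      have h1 : (r : F) = ∏ s ∈ Finset.univ.erase p, (g j s : F) := by rw [hr]; push_cast; rfl
      rw [h1]
      exact Finset.prod_ne_zero_iff.2 fun s _ => hg0 j s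
    refine ⟨a p * r, hrK _ (ha p), ?_, ?_⟩
    · have h1 : ((a p * r : A) : F) / ((∏ s, g i s : A) : F) =
          ((a p : F) / (b p : F)) * (((b p * r : A) : F) / ((∏ s, g i s : A) : F)) := by
        have h2 : ((a p * r : A) : F) = (a p : F) * (r : F) := rfl
        have h3 : ((b p * r : A) : F) = (b p : F) * (r : F) := rfl
        have h4 := hb0 p
        have h5 := hf0 i
        rw [h2, h3]
        field_simp
      rw [h1, map_mul]
      have h2 : (U i).valuation (((b p * r : A) : F) / ((∏ s, g i s : A) : F)) ≤ 1 :=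
        ((U i).valuation_le_one_iff _).2 ((hA i).1 (hfV i _ (hrK _ (hb p))))
      exact lt_of_le_of_lt (mul_le_of_le_one_right' h2) (hab p)
    · have h1 : ((a p * r : A) : F) / ((∏ s, g j s : A) : F) = (a p : F) / (g j p : F) := by
        have h2 : ((a p * r : A) : F) = (a p : F) * (r : F) := rfl
        have h3 : ((∏ s, g j s : A) : F) = (g j p : F) * (r : F) := by
          rw [← Finset.mul_prod_erase Finset.univ (g j) (Finset.mem_univ p)]
          rfl
        have h4 := hg0 j p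
        rw [h2, h3]
        field_simp
      rw [h1, val_one_iff]
      refine ⟨div_ne_zero (ha0 p) (hg0 j p), hgV j p _ (ha p), ?_⟩
      rw [inv_div]
      exact hKa p _ (hg j p)
  · intro q hq hJq
    obtain ⟨p, -, hp⟩ := (Ideal.IsPrime.prod_le hq).1 hJq
    rcases hK p q hq hp with h | h
    · exact ⟨p.1.1, fun x hx => h ((hcm _ x).2 hx)⟩
    · exact ⟨p.1.2, fun x hx => h ((hcm _ x).2 hx)⟩

end Pool.Agent.H893.SC
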