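import Pool.Agent.H893.SC.P_stage
import Pool.Agent.H893.SC.P_sep
import Pool.Agent.H893.DD.P_sim2

/-!
# Simultaneous log uniformization of finitely many independent valuations
(adapted from DD/P_sim2 of helper539)
-/

set_option autoImplicit false
set_option linter.unusedVariables false
set_option linter.unusedSectionVars false

universe u

namespace Pool.Agent.H893.SC.Psim2

open Pool.Agent.W418.LU2 IsLocalRing Filter
open Pool.Agent.H176.DT (Mod SU PP St val_one_iff)
open Pool.Agent.H893.DD.Psim2 (closure_closure PP_eq PMon_pow pow_div den bb mem_bb)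

variable {F : Type u} [Field F]

/-- The data along one valuation. -/
lemma pack (h : S_stage.{u}) (V V' : ValuationSubring F) (A : Subring F) [IsNoetherianRing A]
    (hM : Mod V A) (hA : Arc V V')
    (hSU : SU V A) (J : Ideal A) (f : A) (hfJ : f ∈ J) (hf0 : (f : F) ≠ 0)
    (hJV : ∀ a ∈ J, (a : F) / (f : F) ∈ V) (G : Set F) (hGf : G.Finite) (hG0 : ∀ g ∈ G, g ≠ 0) :
    ∃ (T : Set F) (n : ℕ) (x : Fin n → F) (β : F) (N : ℕ) (b : ℕ → Ideal A),
      RegP V.toSubring (PP V A T) x ∧ PMon (PP V A T) x β ∧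
      (∀ g ∈ G, PMon (PP V A T) x g ∧ (g ∈ V → g ∈ PP V A T)) ∧
      (∀ a ∈ J, (a : F) / (f : F) ∈ PP V A T) ∧
      ∀ᶠ M : ℕ in atTop, N ≤ M ∧ b M ≤ J ^ M ∧
        (∃ γ ∈ b M, (γ : F) = β * (f : F) ^ M) ∧
        (∀ u ∈ b M, (u : F) / (β * (f : F) ^ M) ∈ PP V A T) ∧
        (∀ t ∈ T, ∃ a ∈ J * b M, (a : F) = t * ((f : F) * (β * (f : F) ^ M))) ∧
        (∀ c ∈ J, V'.valuation ((c : F) / (f : F)) < 1 → ∀ g ∈ J ^ (M - N), c ^ N * g ∈ b M) ∧
        ∀ q : Ideal A, q.IsPrime → b M ≤ q → J ≤ q ∨ ∀ a : A, V'.valuation (a : F) < 1 → a ∈ q := by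
  classical
  have hAV : A ≤ V.toSubring := hM.1
  have hAV' : A ≤ V'.toSubring := fun a ha => hA.1 (hAV ha)
  obtain ⟨SJ, hSJ⟩ := (IsNoetherian.noetherian J : J.FG)
  have hSJ' : J = Ideal.span (SJ : Set A) := hSJ.symm
  set U : Set F := (fun g : A => (g : F) / (f : F)) '' (SJ : Set A) with hU
  have hUf : U.Finite := SJ.finite_toSet.image _
  have hUJ : ∀ t ∈ U, ∃ g ∈ J, t = (g : F) / (f : F) := by
    rintro _ ⟨g, hg, rfl⟩
    exact ⟨g, by rw [hSJ']; exact Ideal.subset_span hg, rfl⟩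
  have hUV : ∀ t ∈ U, t ∈ V := by
    intro t ht
    obtain ⟨g, hg, rfl⟩ := hUJ t ht
    exact hJV g hg
  set B : Subring F := Subring.closure ((A : Set F) ∪ U) with hB
  have hAB : A ≤ B := fun a ha => Subring.subset_closure (Or.inl ha)
  have hBV : B ≤ V.toSubring := by
    rw [hB, Subring.closure_le]
    rintro z (hz | hz)
    · exact hAV hz
    · exact hUV z hz
  have hnB : IsNoetherianRing B := Pool.Agent.H176.DT.p_noe A U hUf
  have hSUB : SU V B := (Pool.Agent.H176.DT.p_move V A hM U hUf hUV).1 hSU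
  have hJB : ∀ a ∈ J, (a : F) / (f : F) ∈ B := by
    rw [hSJ']
    exact Pool.Agent.H893.DD.Psim.div_span hAB fun a ha => Subring.subset_closure (Or.inr ⟨a, ha, rfl⟩)
  have hBV' : B ≤ V'.toSubring := fun b hb => hA.1 (hBV hb)
  obtain ⟨T, n, x, β, N, hT, hreg, hβB, hβm, hTβ, hG, hcen⟩ := h V V' B hBV hA hSUB G hGf hG0
  have hPP : PP V B T = PP V A (U ∪ T) := PP_eq V A U T
  have hBP : B ≤ PP V B T := fun a ha => le_lo _ _ (Subring.subset_closure (Or.inl ha))
  have hTP : ∀ t ∈ T, t ∈ PP V B T := fun t ht => le_lo _ _ (Subring.subset_closure (Or.inr ht))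
  have hβ0 : β ≠ 0 := by
    obtain ⟨u, u0, -, -, δ, hu⟩ := hβm
    rw [hu]
    exact mul_ne_zero u0 (mo_ne_zero hreg.ne δ)
  -- the centre on `B`
  set c : Ideal B := (maximalIdeal V').comap (Subring.inclusion hBV' : B →+* V') with hcdef
  have hcm : ∀ a : B, a ∈ c ↔ V'.valuation (a : F) < 1 := fun a => Pool.Agent.H893.DD.Psim.mem_cen hBV' a
  set S : Set B := {a | (a : F) = β ∨ ∃ t ∈ T, (a : F) = t * β} with hS
  set bI : Ideal B := Ideal.span S ⊔ c ^ N with hbI
  have hβI : (⟨β, hβB⟩ : B) ∈ bI := Ideal.mem_sup_left (Ideal.subset_span (Or.inl rfl))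
  have hbP : ∀ a ∈ bI, (a : F) / β ∈ PP V B T := by
    intro a ha
    obtain ⟨b, hb, e, he, rfl⟩ := Submodule.mem_sup.1 ha
    have h1 : ((b + e : B) : F) / β = (b : F) / β + (e : F) / β := add_div _ _ _
    rw [h1]
    refine Subring.add_mem _ (Pool.Agent.H893.DD.Psim.div_span hBP ?_ b hb) ?_
    · rintro a (h | ⟨t, ht, h⟩)
      · rw [h, div_self hβ0]; exact Subring.one_mem _
      · rw [h, mul_div_assoc, div_self hβ0, mul_one]
        exact hTP t ht
    · refine Pool.Agent.H893.DD.Psim.div_span hBP ?_ e (Pool.Agent.H893.DD.Psim.pow_le c N he)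
      rintro a ⟨w, hw, rfl⟩
      have h2 := hcen (fun k => (w k : F)) fun k => ⟨(w k).2, (hcm _).1 (hw k)⟩
      rw [div_eq_mul_inv]
      have h3 : ((∏ k, w k : B) : F) = ∏ k, (w k : F) := by push_cast; rfl
      rw [h3]
      exact h2
  have hcI : c ^ N ≤ bI := le_sup_right
  have hfM : ∀ M : ℕ, (f : F) ^ M ≠ 0 := fun M => pow_ne_zero _ hf0
  -- the denominators
  have hd1 := den hfJ hf0 hUJ hβB
  have hd2 : ∀ᶠ M : ℕ in atTop, ∀ t ∈ T, ∃ a ∈ J ^ M, (a : F) = (β * t) * (f : F) ^ M :=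
    (Filter.eventually_all_finite hT).2 fun t ht => den hfJ hf0 hUJ (hTβ t ht)
  refine ⟨U ∪ T, n, x, β, N, fun M => bb hAB J (f : F) bI M, ?_, ?_, ?_, ?_, ?_⟩
  · rw [← hPP]; exact hreg
  · rw [← hPP]; exact hβm
  · rw [← hPP]; exact hG
  · intro a ha
    rw [← hPP]
    exact hBP (hJB a ha)
  · filter_upwards [hd1, hd2, eventually_ge_atTop N] with M h1 h2 hNM
    obtain ⟨γ, hγJ, hγ⟩ := h1
    have hγb : γ ∈ bb hAB J (f : F) bI M := ⟨hγJ, ⟨β, hβB⟩, hβI, hγ.symm⟩
    refine ⟨hNM, fun a ha => ha.1, ⟨γ, hγb, hγ⟩, ?_, ?_, ?_, ?_⟩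
    · rintro u ⟨-, y, hy, hyu⟩
      rw [← hyu, mul_div_mul_right _ _ (hfM M), ← hPP]
      exact hbP y hy
    · rintro t (ht | ht)
      · obtain ⟨g, hg, rfl⟩ := hUJ t ht
        refine ⟨g * γ, Ideal.mul_mem_mul hg hγb, ?_⟩
        change (g : F) * (γ : F) = _
        rw [hγ]
        field_simp
      · obtain ⟨a, ha, hat⟩ := h2 t ht
        have hab : a ∈ bb hAB J (f : F) bI M := ⟨ha, ⟨β * t, hTβ t ht⟩,
          Ideal.mem_sup_left (Ideal.subset_span (Or.inr ⟨t, ht, mul_comm _ _⟩)), hat.symm⟩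
        refine ⟨f * a, Ideal.mul_mem_mul hfJ hab, ?_⟩
        change (f : F) * (a : F) = _
        rw [hat]
        ring
    · intro e he hev g hg
      have hMN : N + (M - N) = M := by omega
      have he' : (⟨(e : F) / (f : F), hJB e he⟩ : B) ∈ c := (hcm _).2 hev
      refine ⟨?_, (⟨(e : F) / (f : F), hJB e he⟩ : B) ^ N *
        ⟨(g : F) / (f : F) ^ (M - N), pow_div hAB hJB (M - N) g hg⟩, ?_, ?_⟩
      · rw [← hMN, pow_add]
        exact Ideal.mul_mem_mul (Ideal.pow_mem_pow he N) hg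
      · exact hcI (Ideal.mul_mem_right _ _ (Ideal.pow_mem_pow he' N))
      · change ((e : F) / (f : F)) ^ N * ((g : F) / (f : F) ^ (M - N)) * (f : F) ^ M =
          (e : F) ^ N * (g : F)
        conv_lhs => rw [← hMN, pow_add, hMN]
        rw [div_pow]
        field_simp
    · intro q hq hbq
      set cA : Ideal A := (maximalIdeal V').comap (Subring.inclusion hAV' : A →+* V') with hcA
      have hcAm : ∀ a : A, a ∈ cA ↔ V'.valuation (a : F) < 1 := fun a => Pool.Agent.H893.DD.Psim.mem_cen hAV' a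
      have hle : J ^ M * Ideal.span {a : A | ∃ w : Fin N → A, (∀ i, w i ∈ cA) ∧ a = ∏ i, w i} ≤
          bb hAB J (f : F) bI M := by
        refine Ideal.mul_le.2 fun g hg a ha => ?_
        refine Submodule.span_induction (p := fun a _ => g * a ∈ bb hAB J (f : F) bI M)
          ?_ ?_ ?_ ?_ ha
        · rintro a ⟨w, hw, rfl⟩
          have h3 : ((∏ i, w i : A) : F) = ∏ i, (w i : F) := by push_cast; rfl
          have h4 : (∏ i, (⟨(w i : F), hAB (w i).2⟩ : B)) ∈ c ^ N := by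
            have h5 : (∏ i : Fin N, (⟨(w i : F), hAB (w i).2⟩ : B)) ∈ ∏ i : Fin N, c :=
              Ideal.prod_mem_prod fun i _ => (hcm _).2 ((hcAm _).1 (hw i))
            rwa [Finset.prod_const, Finset.card_univ, Fintype.card_fin] at h5
          have h6 : ((∏ i, (⟨(w i : F), hAB (w i).2⟩ : B) : B) : F) = ∏ i, (w i : F) := by
            push_cast; rfl
          refine ⟨Ideal.mul_mem_right _ _ hg, (∏ i, (⟨(w i : F), hAB (w i).2⟩ : B)) *
            ⟨(g : F) / (f : F) ^ M, pow_div hAB hJB M g hg⟩,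
            hcI (Ideal.mul_mem_right _ _ h4), ?_⟩
          change ((∏ i, (⟨(w i : F), hAB (w i).2⟩ : B) : B) : F) * ((g : F) / (f : F) ^ M) *
            (f : F) ^ M = (g : F) * ((∏ i, w i : A) : F)
          rw [h6, h3, mul_assoc, div_mul_cancel₀ _ (hfM M), mul_comm]
        · rw [mul_zero]; exact zero_mem _
        · intro a b _ _ ha hb
          rw [mul_add]
          exact add_mem ha hb
        · intro r a _ ha
          rw [smul_eq_mul, mul_left_comm]
          exact Ideal.mul_mem_left _ _ ha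
      have hle2 : J ^ M * cA ^ N ≤ q :=
        (Ideal.mul_mono_right (Pool.Agent.H893.DD.Psim.pow_le cA N)).trans (hle.trans hbq)
      rcases (Ideal.IsPrime.mul_le hq).1 hle2 with h7 | h7
      · exact Or.inl (Ideal.IsPrime.le_of_pow_le h7)
      · have h8 : cA ≤ q := Ideal.IsPrime.le_of_pow_le h7
        exact Or.inr fun a ha => h8 ((hcAm a).2 ha)

end Pool.Agent.H893.SC.Psim2

namespace Pool.Agent.H893.SC

open Pool.Agent.W418.LU2 IsLocalRing Filter
open Pool.Agent.H176.DT (Mod SU PP St val_one_iff)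
open Pool.Agent.H893.DD.Psim2 (closure_closure PP_eq PMon_pow pow_div den bb mem_bb)

theorem t_sim (h1 : S_stage.{u}) (h2 : S_sep.{u}) : S_sim.{u} := by
  classical
  intro F _ A _ m V U hM hArc hSU hV D I₀ hD hI₀
  have hAV : ∀ i, A ≤ (V i).toSubring := fun i => (hM i).1
  obtain ⟨J, f, hfJ, hsep, hsup⟩ := h2 A V U hM hArc hV
  choose d GD hd hd0 hGDf hGD0 hdG hDP using fun i => Pool.Agent.H893.DD.Psim.gen (V i) A (hAV i) D hD
  choose e GI he he0 hGIf hGI0 heG hIP using fun i => Pool.Agent.H893.DD.Psim.gen (V i) A (hAV i) I₀ hI₀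
  choose T n x β N b hreg hβm hG hJP hM' using fun i =>
    Psim2.pack h1 (V i) (U i) A (hM i) (hArc i) (hSU i) J (f i) (hfJ i).1 (hfJ i).2.1 (hfJ i).2.2
      ((GD i ∪ GI i) ∪ {(f i : F)}) (((hGDf i).union (hGIf i)).union (Set.finite_singleton _))
      (by
        rintro g ((hg | hg) | hg)
        · exact hGD0 i g hg
        · exact hGI0 i g hg
        · rw [Set.mem_singleton_iff.1 hg]
          exact (hfJ i).2.1)
  obtain ⟨M, hMM⟩ := (eventually_all.2 hM').exists
  choose hNM hbJ hγ hbP hTJ hF4 hq using hMM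
  choose γ hγb hγβ using hγ
  have hAP : ∀ i, A ≤ PP (V i) A (T i) := fun i a ha =>
    le_lo _ _ (Subring.subset_closure (Or.inl ha))
  have hβ0 : ∀ i, β i ≠ 0 := by
    intro i
    obtain ⟨u, u0, -, -, δ, hu⟩ := hβm i
    rw [hu]
    exact mul_ne_zero u0 (mo_ne_zero (hreg i).ne δ)
  have hf0 : ∀ i, (f i : F) ≠ 0 := fun i => (hfJ i).2.1
  have hfm : ∀ i, PMon (PP (V i) A (T i)) (x i) (f i : F) := fun i => (hG i _ (Or.inr rfl)).1
  have hβf0 : ∀ i, (f i : F) * (β i * (f i : F) ^ M) ≠ 0 := fun i =>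
    mul_ne_zero (hf0 i) (mul_ne_zero (hβ0 i) (pow_ne_zero _ (hf0 i)))
  have hfγ : ∀ i, ((f i * γ i : A) : F) = (f i : F) * (β i * (f i : F) ^ M) := fun i => by
    rw [← hγβ i]
    rfl
  have hfγJ : ∀ i, f i * γ i ∈ J * b i M := fun i => Ideal.mul_mem_mul (hfJ i).1 (hγb i)
  refine ⟨∏ j, (J * b j M), ?_, fun i => ?_, ?_⟩
  · -- not zero
    intro h0
    have h3 : (∏ j, (f j * γ j)) ∈ ∏ j, (J * b j M) := Ideal.prod_mem_prod fun j _ => hfγJ j
    rw [h0, Ideal.mem_bot, Finset.prod_eq_zero_iff] at h3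
    obtain ⟨j, -, hj⟩ := h3
    exact hβf0 j (by rw [← hfγ j, hj]; rfl)
  · -- along the valuation `V i`
    have hex : ∀ j, ∃ γ' : A, γ' ∈ J * b j M ∧ (γ' : F) ≠ 0 ∧
        (j = i → (γ' : F) = (f i : F) * (β i * (f i : F) ^ M)) ∧
        PMon (PP (V i) A (T i)) (x i) (γ' : F) ∧
        ∀ a ∈ J * b j M, (a : F) / (γ' : F) ∈ PP (V i) A (T i) := by
      intro j
      by_cases hji : j = i
      · subst hji
        refine ⟨f j * γ j, hfγJ j, ?_, fun _ => hfγ j, ?_, ?_⟩
        · rw [hfγ]; exact hβf0 j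
        · rw [hfγ]
          exact (hfm j).mul (hreg j).ne ((hβm j).mul (hreg j).ne
            (Pool.Agent.H893.DD.Psim2.PMon_pow (hreg j).ne (hfm j) M))
        · rw [hfγ]
          exact Pool.Agent.H893.DD.Psim.mul_div (hJP j) (hbP j)
      · obtain ⟨c, hcJ, hc1, hc2⟩ := hsep j i hji
        -- the element `c ^ N * f ^ (M - N)`
        have h3 : c ^ N j * f i ^ (M - N j) ∈ b j M :=
          hF4 j c hcJ hc1 _ (Ideal.pow_mem_pow (hfJ i).1 _)
        have hNM' : N j + (M - N j) = M := by have := hNM j; omega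
        have h4 : ((c ^ N j * f i ^ (M - N j) : A) : F) =
            ((c : F) / (f i : F)) ^ N j * (f i : F) ^ M := by
          change (c : F) ^ N j * (f i : F) ^ (M - N j) = _
          have h5 := hf0 i
          conv_rhs => rw [← hNM', pow_add]
          rw [div_pow]
          field_simp
        have h5 : (V i).valuation (((c : F) / (f i : F)) ^ N j) = 1 := by
          rw [map_pow, hc2, one_pow]
        obtain ⟨h6, h7, h8⟩ := (val_one_iff (V i) _).1 h5
        have h9 : ((c : F) / (f i : F)) ^ N j ∈ PP (V i) A (T i) :=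
          pow_mem (hJP i c hcJ) _
        have h10 : (((c : F) / (f i : F)) ^ N j)⁻¹ ∈ PP (V i) A (T i) :=
          (hreg i).inv _ h9 h6 h8
        have h11 : PMon (PP (V i) A (T i)) (x i) (((c : F) / (f i : F)) ^ N j) :=
          ⟨_, h6, h9, h10, 0, by rw [mo_zero, mul_one]⟩
        have h12 : ∀ a ∈ b j M, (a : F) / ((c ^ N j * f i ^ (M - N j) : A) : F) ∈
            PP (V i) A (T i) := by
          intro a ha
          have h13 := Pool.Agent.H893.DD.Psim2.pow_div (hAP i) (hJP i) M a (hbJ j ha)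
          rw [h4]
          have h14 : (a : F) / (((c : F) / (f i : F)) ^ N j * (f i : F) ^ M) =
              ((a : F) / (f i : F) ^ M) * (((c : F) / (f i : F)) ^ N j)⁻¹ := by
            rw [div_mul_eq_div_div_swap, div_eq_mul_inv ((a : F) / (f i : F) ^ M)]
          rw [h14]
          exact Subring.mul_mem _ h13 h10
        have h15 : ((f i * (c ^ N j * f i ^ (M - N j)) : A) : F) =
            (f i : F) * ((c ^ N j * f i ^ (M - N j) : A) : F) := rfl
        refine ⟨f i * (c ^ N j * f i ^ (M - N j)), Ideal.mul_mem_mul (hfJ i).1 h3, ?_,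
          fun h => absurd h hji, ?_, ?_⟩
        · rw [h15, h4]
          exact mul_ne_zero (hf0 i) (mul_ne_zero h6 (pow_ne_zero _ (hf0 i)))
        · rw [h15, h4]
          exact (hfm i).mul (hreg i).ne (h11.mul (hreg i).ne
            (Pool.Agent.H893.DD.Psim2.PMon_pow (hreg i).ne (hfm i) M))
        · rw [h15]
          exact Pool.Agent.H893.DD.Psim.mul_div (hJP i) h12
    choose γ' hγ' hγ0' hγi' hγm' hγP' using hex
    have hβm' : PMon (PP (V i) A (T i)) (x i) ((f i : F) * (β i * (f i : F) ^ M)) :=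
      (hfm i).mul (hreg i).ne ((hβm i).mul (hreg i).ne
        (Pool.Agent.H893.DD.Psim2.PMon_pow (hreg i).ne (hfm i) M))
    refine Pool.Agent.H893.DD.Psim.one (hreg i) (β := (f i : F) * (β i * (f i : F) ^ M)) ?_ hβm' ?_ (hd i) (hd0 i)
      (he i) (he0 i) (hG i _ (Or.inl (Or.inl (hdG i)))).1 (hG i _ (Or.inl (Or.inr (heG i)))).1
      (hDP i _ (hAP i) fun g hg => (hG i g (Or.inl (Or.inl hg))).2)
      (hIP i _ (hAP i) fun g hg => (hG i g (Or.inl (Or.inr hg))).2) i (fun j => J * b j M) γ' hγ'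
      hγ0' (hγi' i rfl) hγm' hγP' ?_
    · rw [← hfγ i]
      exact (f i * γ i).2
    · intro t ht
      obtain ⟨a, -, ha⟩ := hTJ i t ht
      rw [mul_comm, ← ha]
      exact a.2
    · intro t ht a ha
      obtain ⟨a', ha', hat⟩ := hTJ i t ht
      have h3 : a = a' := Subtype.ext (ha.trans hat.symm)
      rw [h3]
      exact ha'
  · -- the support
    intro q hqp hIq
    obtain ⟨i, -, hi⟩ := (Ideal.IsPrime.prod_le hqp).1 hIq
    rcases (Ideal.IsPrime.mul_le hqp).1 hi with h3 | h3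
    · exact hsup q hqp h3
    · rcases hq i q hqp h3 with h4 | h4
      · exact hsup q hqp h4
      · exact ⟨i, h4⟩

end Pool.Agent.H893.SC
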