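import Pool.Agent.H893.SC.P_pos
import Pool.Agent.H893.DD.P_stage

/-!
# One stage: a power of the centre of the coarsening is divisible by the denominator
(adapted from DD/P_stage of helper539)
-/

set_option autoImplicit false
set_option linter.unusedVariables false
set_option linter.unusedSectionVars false

universe u

namespace Pool.Agent.H893.SC

open Pool.Agent.W418.LU2 IsLocalRing Polynomial
open Pool.Agent.H176.DT (Mod SU PP St)
open Pool.Agent.H893.DD.Pstage


/-- **One stage.** -/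
theorem t_stage : S_stage.{u} := by
  classical
  intro F _ V U A _ hAV hA hSU G hG hG0
  have hAU : A ≤ U.toSubring := fun a ha => hA.1 (hAV ha)
  -- the centre of the coarsening
  set c : Ideal A := (maximalIdeal U).comap (Subring.inclusion hAU : A →+* U) with hcdef
  have hcm : ∀ a : A, a ∈ c ↔ U.valuation (a : F) < 1 := fun a =>
    Pool.Agent.H893.DD.Psim.mem_cen hAU a
  obtain ⟨S, hS⟩ := (IsNoetherian.noetherian c : c.FG)
  have hS' : c = Ideal.span (S : Set A) := hS.symm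
  set W : Set F := (fun a : A => (a : F)) '' ((S : Set A) \ {0}) with hW
  have hWf : W.Finite := (S.finite_toSet.sdiff).image _
  have hW0 : ∀ w ∈ W, w ≠ 0 := by
    rintro _ ⟨a, ⟨-, ha⟩, rfl⟩ h
    exact ha (Subtype.ext h)
  have hGf : (G ∪ W).Finite := hG.union hWf
  obtain ⟨T0, s, x0, hSt0, hx0V, hind0, hmon0⟩ := Pool.Agent.H176.DT.p_ind V A hSU
    (G ∪ W) hGf (by
      rintro g (hg | hg)
      · exact hG0 g hg
      · exact hW0 g hg)
  obtain ⟨T, x, hSt, hxV, hind, hmon, hdiv⟩ := t_pos V U hA A T0 x0 hSt0 hx0V hind0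
    (G ∪ W) hGf fun g hg => (hmon0 g hg).1
  -- the centre is divisible by the product of the coordinates
  have hAdiv : ∀ a ∈ A, U.valuation a < 1 → a * (∏ j, x j)⁻¹ ∈ PP V A T := by
    intro a ha h1
    have h2 : (⟨a, ha⟩ : A) ∈ Ideal.span (S : Set A) := by
      rw [← hS']
      exact (hcm _).2 h1
    have h3 : ∀ b ∈ Ideal.span (S : Set A), (b : F) / (∏ j, x j) ∈ PP V A T := by
      refine Pool.Agent.H893.DD.Psim.div_span (le_PP V A T) fun b hb => ?_
      by_cases hb0 : b = 0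
      · rw [hb0]
        have h4 : ((0 : A) : F) / (∏ j, x j) = 0 := by simp
        rw [h4]
        exact Subring.zero_mem _
      · have hbW : (b : F) ∈ W := ⟨b, ⟨hb, hb0⟩, rfl⟩
        have hbU : U.valuation (b : F) < 1 := (hcm b).1 (by rw [hS']; exact Ideal.subset_span hb)
        rw [div_eq_mul_inv]
        refine hdiv (b : F) (le_PP V A T0 b.2) ?_ (hmon0 (b : F) (Or.inr hbW)).1
        rcases lt_one_iff_inv.1 hbU with h4 | h4
        · exact absurd h4 (hW0 _ hbW)
        · exact h4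
    have h4 := h3 _ h2
    rwa [div_eq_mul_inv] at h4
  -- the denominator
  obtain ⟨β, hβA, hβP, hβT, -⟩ := hSt.den
  have hβP' := hβP
  obtain ⟨u, u0, u1, u2, δ, hβ⟩ := hβP'
  have hmoP : mo x δ ∈ PP V A T := by
    have h1 : mo x δ = u⁻¹ * β := by
      rw [hβ, ← mul_assoc, inv_mul_cancel₀ u0, one_mul]
    rw [h1]
    exact Subring.mul_mem _ u2 (le_PP V A T hβA)
  have hδ : ∀ j, 0 ≤ δ j := fun j =>
    Pool.Agent.H176.DT.p_expo hSt.reg δ hmoP j (hxV j)
  refine ⟨T, s, x, β, (∑ j, δ j).toNat, hSt.fin, hSt.reg, hβA, hβP, hβT,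
    fun g hg => hmon g (Or.inl hg), fun v hv => ?_⟩
  have h1 : ∏ i, (v i * (∏ j, x j)⁻¹) ∈ PP V A T :=
    Subring.prod_mem _ fun i _ => hAdiv (v i) (hv i).1 (hv i).2
  rw [Finset.prod_mul_distrib, Finset.prod_const, Finset.card_univ, Fintype.card_fin] at h1
  have h2 : (∏ j, x j) ^ (∑ j, δ j).toNat * (u * mo x δ)⁻¹ ∈ PP V A T :=
    pow_div hSt.reg.ne hSt.reg.mem u2 δ hδ
  have hx0 : (∏ j, x j) ≠ 0 := Finset.prod_ne_zero_iff.2 fun j _ => hSt.reg.ne j
  have h3 : (∏ i, v i) * β⁻¹ = ((∏ i, v i) * (∏ j, x j)⁻¹ ^ (∑ j, δ j).toNat) *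
      ((∏ j, x j) ^ (∑ j, δ j).toNat * (u * mo x δ)⁻¹) := by
    rw [hβ, inv_pow, mul_assoc, ← mul_assoc ((∏ j, x j) ^ (∑ j, δ j).toNat)⁻¹,
      inv_mul_cancel₀ (pow_ne_zero _ hx0), one_mul]
  rw [h3]
  exact Subring.mul_mem _ h1 h2

end Pool.Agent.H893.SC
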