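import Pool.Agent.H893.DD.Stm5
import Pool.Agent.H893.DD.P_sim

/-!
# Simultaneous log uniformization of finitely many independent valuations of arbitrary rank

`U` is a coarsening of rank one of the valuation ring `V`.
-/

set_option autoImplicit false
set_option linter.unusedVariables false
set_option linter.unusedSectionVars false

universe u

namespace Pool.Agent.H893.SC

open Pool.Agent.W418.LU2 IsLocalRing Polynomial
open Pool.Agent.H176.DT (Mod SU PP St)

/-- `U ⊇ V` is a valuation ring of rank one: the powers of the elements of positive value with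
respect to `U` are divisible in `V` by every element. -/
def Arc {F : Type u} [Field F] (V U : ValuationSubring F) : Prop :=
  V ≤ U ∧ ∀ a b : F, b ≠ 0 → a⁻¹ ∉ U → ∃ N : ℕ, a ^ N * b⁻¹ ∈ V

/-- After a change of monomials all coordinates divide all monomials of positive value with respect
to the coarsening. -/
def S_pos : Prop :=
  ∀ {F : Type u} [Field F] (V U : ValuationSubring F), Arc V U →
    ∀ (A : Subring F) (T : Set F) {s : ℕ} (x : Fin s → F), St V A T x → (∀ i, (x i)⁻¹ ∉ V) →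
    (∀ δ : Fin s → ℤ, V.valuation (mo x δ) = 1 → δ = 0) →
    ∀ G : Set F, G.Finite → (∀ g ∈ G, PMon (PP V A T) x g) →
    ∃ (T' : Set F) (x' : Fin s → F), St V A T' x' ∧ (∀ i, (x' i)⁻¹ ∉ V) ∧
      (∀ δ : Fin s → ℤ, V.valuation (mo x' δ) = 1 → δ = 0) ∧
      (∀ g ∈ G, PMon (PP V A T') x' g ∧ (g ∈ V → g ∈ PP V A T')) ∧
      ∀ w ∈ PP V A T, w⁻¹ ∉ U → PMon (PP V A T) x w → w * (∏ i, x' i)⁻¹ ∈ PP V A T'

/-- One stage: a power of the centre of the coarsening is divisible by the denominator. -/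
def S_stage : Prop :=
  ∀ {F : Type u} [Field F] (V U : ValuationSubring F) (A : Subring F) [IsNoetherianRing A],
    A ≤ V.toSubring → Arc V U → SU V A →
    ∀ G : Set F, G.Finite → (∀ g ∈ G, g ≠ 0) →
    ∃ (T : Set F) (n : ℕ) (x : Fin n → F) (β : F) (N : ℕ), T.Finite ∧
      RegP V.toSubring (PP V A T) x ∧ β ∈ A ∧ PMon (PP V A T) x β ∧ (∀ t ∈ T, β * t ∈ A) ∧
      (∀ g ∈ G, PMon (PP V A T) x g ∧ (g ∈ V → g ∈ PP V A T)) ∧
      ∀ w : Fin N → F, (∀ i, w i ∈ A ∧ U.valuation (w i) < 1) → (∏ i, w i) * β⁻¹ ∈ PP V A T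

/-- Separation of the centres of finitely many valuations by one ideal `J`. -/
def S_sep : Prop :=
  ∀ {F : Type u} [Field F] (A : Subring F) [IsNoetherianRing A] {m : ℕ}
    (V U : Fin m → ValuationSubring F), (∀ i, Mod (V i) A) → (∀ i, Arc (V i) (U i)) →
    (∀ i j, i ≠ j → ∃ z : F, (U i).valuation z < 1 ∧ 1 < (U j).valuation z) →
    ∃ (J : Ideal A) (f : Fin m → A),
      (∀ i, f i ∈ J ∧ (f i : F) ≠ 0 ∧ ∀ a ∈ J, (a : F) / (f i : F) ∈ V i) ∧
      (∀ i j, i ≠ j → ∃ c ∈ J, (U i).valuation ((c : F) / (f i : F)) < 1 ∧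
        (V j).valuation ((c : F) / (f j : F)) = 1) ∧
      ∀ q : Ideal A, q.IsPrime → J ≤ q →
        ∃ i, ∀ a : A, (U i).valuation (a : F) < 1 → a ∈ q

/-- Simultaneous log uniformization of finitely many independent valuations. -/
def S_sim : Prop :=
  ∀ {F : Type u} [Field F] (A : Subring F) [IsNoetherianRing A] {m : ℕ}
    (V U : Fin m → ValuationSubring F), (∀ i, Mod (V i) A) → (∀ i, Arc (V i) (U i)) →
    (∀ i, SU (V i) A) →
    (∀ i j, i ≠ j → ∃ z : F, (U i).valuation z < 1 ∧ 1 < (U j).valuation z) →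
    ∀ D I₀ : Ideal A, D ≠ ⊥ → I₀ ≠ ⊥ → ∃ I₁ : Ideal A, I₁ ≠ ⊥ ∧
      (∀ i, LogDesing (V i) A D (I₀ * I₁)) ∧
      ∀ q : Ideal A, q.IsPrime → I₁ ≤ q →
        ∃ i, ∀ a : A, (U i).valuation (a : F) < 1 → a ∈ q

section

variable {F : Type u} [Field F] {V U : ValuationSubring F}

lemma lt_one_iff_inv {z : F} : U.valuation z < 1 ↔ z = 0 ∨ z⁻¹ ∉ U := by
  by_cases hz : z = 0
  · subst hz
    simp
  · have h0 : U.valuation z ≠ 0 := (Valuation.ne_zero_iff _).2 hz
    rw [← U.valuation_le_one_iff, map_inv₀, not_le, one_lt_inv₀ (zero_lt_iff.2 h0)]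
    constructor
    · exact Or.inr
    · rintro (h | h)
      · exact absurd h hz
      · exact h

lemma Arc.mem (h : V ≤ U) {z : F} (hz : U.valuation z < 1) : z ∈ V := by
  rcases lt_one_iff_inv.1 hz with rfl | h1
  · exact zero_mem _
  · rcases V.mem_or_inv_mem z with h2 | h2
    · exact h2
    · exact absurd (h h2) h1

lemma Arc.lt (h : V ≤ U) {z : F} (hz : U.valuation z < 1) : V.valuation z < 1 := by
  rcases lt_one_iff_inv.1 hz with rfl | h1
  · rw [map_zero]
    exact zero_lt_one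
  · exact lt_one_iff_inv.2 (Or.inr fun h2 => h1 (h h2))

end

end Pool.Agent.H893.SC
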